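/-
helper74. MAD, module PAR: the parallel lemma.
-/
import Pool.Agent.H20.MAD.Def

set_option autoImplicit false

namespace Pool.MAD

open Finset
open scoped Classical

namespace H74

theorem nm_nn {V : Type} [Fintype V] (n : ℕ) (A : ℝ) (f : List V → ℝ) : 0 ≤ nm n A f :=
  Real.sqrt_nonneg _

theorem nm_sq (hH : HILStmt) {V : Type} [Fintype V] (n : ℕ) {A : ℝ} (hA : 0 ≤ A)
    (f : List V → ℝ) : nm n A f ^ 2 = En n A f :=
  Real.sq_sqrt ((hH V n A hA).1 f)

theorem nm_le_iff {V : Type} [Fintype V] (n : ℕ) (A : ℝ) (f : List V → ℝ) {x : ℝ} (hx : 0 ≤ x) :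
    nm n A f ≤ x ↔ En n A f ≤ x ^ 2 := Real.sqrt_le_left hx

theorem nm_tri (hH : HILStmt) {V : Type} [Fintype V] (n : ℕ) {A : ℝ} (hA : 0 ≤ A)
    (f g h : List V → ℝ) : nm n A (fun y => f y - h y) ≤
      nm n A (fun y => f y - g y) + nm n A (fun y => g y - h y) := by
  have h2 := (hH V n A hA).2.1 (fun y => f y - g y) (fun y => g y - h y)
  have e : (fun y => f y - h y) = fun y => (f y - g y) + (g y - h y) := by
    funext y; ring
  rw [e]
  exact h2

theorem nm_rev (hH : HILStmt) {V : Type} [Fintype V] (n : ℕ) {A : ℝ} (hA : 0 ≤ A)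
    (f g : List V → ℝ) : nm n A f ≤ nm n A g + nm n A (fun y => f y - g y) := by
  have h2 := (hH V n A hA).2.1 g (fun y => f y - g y)
  have e : f = fun y => g y + (f y - g y) := by
    funext y; ring
  calc nm n A f = nm n A (fun y => g y + (f y - g y)) := by rw [← e]
    _ ≤ _ := h2

theorem En_zero {V : Type} [Fintype V] (n : ℕ) (A : ℝ) :
    En n A (fun _ : List V => (0 : ℝ)) = 0 := by
  unfold En
  simp

theorem En_mv_out {V : Type} [Fintype V] (N : V → Finset V) (n : ℕ) (A : ℝ) (B : Finset V)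
    (T : ℕ) (u : V) (h : u ∉ B) : En n A (mv N n A B T u) = 0 := by
  unfold mv
  rw [if_neg h]
  exact En_zero n A

theorem En_mv_zero {V : Type} [Fintype V] (N : V → Finset V) (n : ℕ) (A : ℝ) (B : Finset V)
    (u : V) : En n A (mv N n A B 0 u) = 0 := by
  unfold En
  refine sum_eq_zero fun y hy => ?_
  have hy' : y ≠ [] := by
    unfold ch at hy
    exact (mem_filter.mp hy).2
  have : mv N n A B 0 u y = 0 := by
    unfold mv
    split_ifs
    · unfold cv
      refine sum_eq_zero fun w hw => ?_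
      have hw' : w = [] := by simpa [Wk] using hw
      subst hw'
      cases y with
      | nil => exact absurd rfl hy'
      | cons a as => simp [cnt]
    · rfl
  rw [this]
  ring

end H74

open H74

/-- PAR -/
theorem t_par (hC : CATStmt) (hM : MONStmt) (hH : HILStmt) : PARStmt := by
  intro V _ N n A r β a t B' B T' T u Q hN hA hr hAr hB hT huB hBr hβ ha ha1 ht ht4 hψt hnu hQ hQa
  have hA0 : 0 ≤ A := hA.le
  obtain ⟨i1, i2, i3, i4, i5, i6, i7, i8, i9, i10⟩ := hH V n A hA0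
  obtain ⟨m1, m2, m3⟩ := hM V N n A B u hN hA0 (hB huB)
  obtain ⟨ψ, hψ⟩ : ∃ ψ, ψ = β + 2 * a := ⟨_, rfl⟩
  obtain ⟨R, hR⟩ : ∃ R, R = Real.sqrt r := ⟨_, rfl⟩
  obtain ⟨σ, hσ⟩ : ∃ σ, σ = Real.sqrt t := ⟨_, rfl⟩
  have hR0 : 0 < R := by rw [hR]; exact Real.sqrt_pos.mpr hr
  have hR2 : R ^ 2 = r := by rw [hR]; exact Real.sq_sqrt hr.le
  have hσ0 : 0 < σ := by rw [hσ]; exact Real.sqrt_pos.mpr ht
  have hσ2 : σ ^ 2 = t := by rw [hσ]; exact Real.sq_sqrt ht.le
  have hσh : σ ≤ 1 / 2 := by nlinarith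
  have htσ : t ≤ σ / 2 := by nlinarith
  rw [← hR] at hnu hQa
  rw [← hψ] at hψt
  obtain ⟨W', hW'⟩ : ∃ W', W' = Wk N B' T' u := ⟨_, rfl⟩
  obtain ⟨Mw, hMw⟩ : ∃ Mw : List V → List V → ℝ,
      Mw = fun w => mv N n A B (T - w.length) (lst u w) := ⟨_, rfl⟩
  have hMr : ∀ w, En n A (Mw w) ≤ r := by
    intro w
    rw [hMw]
    by_cases hz : lst u w ∈ B
    · exact le_trans ((hM V N n A B (lst u w) hN hA0 hz).2.1 _ T (Nat.sub_le _ _))
        (hBr _ hz)
    · show En n A (mv N n A B (T - w.length) (lst u w)) ≤ r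
      rw [En_mv_out N n A B _ _ hz]
      exact hr.le
  obtain ⟨C, hCp, hCn⟩ := hC V N n A r B' B T' T u Q hN hA hr.le hAr hB hT huB hQ
    (fun w _ => by
      have := hMr w
      rw [hMw] at this
      exact this)
  obtain ⟨m, hm⟩ : ∃ m : List V → ℝ, m = fun y => ∑ w ∈ W', Q w * Mw w y := ⟨_, rfl⟩
  obtain ⟨NC, hNC⟩ : ∃ NC : List V → ℝ, NC = cv (Wk N B T u) C := ⟨_, rfl⟩
  obtain ⟨Nu, hNu⟩ : ∃ Nu : List V → ℝ, Nu = mv N n A B T u := ⟨_, rfl⟩
  rw [← hNu] at hnu
  have hQ' : Pln W' Q := by rw [hW']; exact hQ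
  have hCm : nm n A (fun y => NC y - m y) ≤ 2 * a * R := by
    have h1 : nm n A (fun y => NC y - m y) ≤ 2 * nm n (2 * A) (cv (Wk N B' T' u) Q) := by
      rw [hNC, hm, hW', hMw]
      exact hCn
    linarith
  have hMwR : ∀ w, nm n A (Mw w) ≤ R := by
    intro w
    rw [nm_le_iff n A _ hR0.le, hR2]
    exact hMr w
  have hmR : nm n A m ≤ R := by
    rw [hm]
    refine le_trans (i7 (List V) W' Q Mw (fun w _ => hQ'.nn w)) ?_
    calc ∑ w ∈ W', Q w * nm n A (Mw w) ≤ ∑ w ∈ W', Q w * R :=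
          sum_le_sum fun w _ => mul_le_mul_of_nonneg_left (hMwR w) (hQ'.nn w)
      _ = R := by rw [← sum_mul, hQ'.tot, one_mul]
  have hENu : En n A Nu ≤ En n A NC := by
    have h1 := m1 T C hCp
    rw [← hNu, ← hNC] at h1
    have h2 := i1 (fun y => NC y - Nu y)
    linarith
  have hnNu : nm n A Nu ≤ nm n A NC := Real.sqrt_le_sqrt hENu
  have hm_low : (1 - ψ) * R ≤ nm n A m := by
    have h1 := nm_rev hH n hA0 NC m
    rw [hψ]
    linarith
  have hψ0 : 0 ≤ ψ := by rw [hψ]; linarith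
  have hψ1 : 0 ≤ 1 - ψ := by linarith
  -- variance
  have hvar : ∑ w ∈ W', Q w * En n A (fun y => Mw w y - m y) ≤ 2 * ψ * r := by
    have h1 := i8 (List V) W' Q Mw hQ'.tot
    rw [hm]
    rw [h1]
    have h2 : ∑ w ∈ W', Q w * En n A (Mw w) ≤ r := by
      calc ∑ w ∈ W', Q w * En n A (Mw w) ≤ ∑ w ∈ W', Q w * r :=
            sum_le_sum fun w _ => mul_le_mul_of_nonneg_left (hMr w) (hQ'.nn w)
        _ = r := by rw [← sum_mul, hQ'.tot, one_mul]
    have h3 : En n A (fun y => ∑ w ∈ W', Q w * Mw w y) = nm n A m ^ 2 := by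
      rw [nm_sq hH n hA0, hm]
    rw [h3]
    have h4 : ((1 - ψ) * R) ^ 2 ≤ nm n A m ^ 2 :=
      pow_le_pow_left₀ (mul_nonneg hψ1 hR0.le) hm_low 2
    have h5 : ((1 - ψ) * R) ^ 2 = (1 - ψ) ^ 2 * r := by rw [mul_pow, hR2]
    nlinarith [sq_nonneg ψ]
  -- good walks
  have hgood : ∀ w, En n A (fun y => Mw w y - m y) ≤ t ^ 2 * r →
      (lst u w ∈ B ∧ w.length < T ∧
        nm n A (fun y => mv N n A B T (lst u w) y - mv N n A B T u y) ≤
          10 * Real.sqrt t * Real.sqrt r) := by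
    intro w hw
    have hw1 : nm n A (fun y => Mw w y - m y) ≤ t * R := by
      rw [nm_le_iff n A _ (by positivity), mul_pow, hR2]
      exact hw
    have hw2 : (1 - ψ - t) * R ≤ nm n A (Mw w) := by
      have h1 := nm_rev hH n hA0 m (Mw w)
      rw [i4 m (Mw w)] at h1
      linarith
    have hw3 : 0 < nm n A (Mw w) := by
      have : 0 < (1 - ψ - t) * R := mul_pos (by linarith) hR0
      linarith
    have hz : lst u w ∈ B := by
      by_contra hz
      have : nm n A (Mw w) = 0 := by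
        rw [hMw]
        show Real.sqrt (En n A (mv N n A B (T - w.length) (lst u w))) = 0
        rw [En_mv_out N n A B _ _ hz, Real.sqrt_zero]
      linarith
    have hlen : w.length < T := by
      by_contra hlen
      have h0 : T - w.length = 0 := by omega
      have : nm n A (Mw w) = 0 := by
        rw [hMw]
        show Real.sqrt (En n A (mv N n A B (T - w.length) (lst u w))) = 0
        rw [h0, En_mv_zero N n A B, Real.sqrt_zero]
      linarith
    refine ⟨hz, hlen, ?_⟩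
    rw [← hσ, ← hR, ← hNu]
    obtain ⟨Nz, hNz⟩ : ∃ Nz : List V → ℝ, Nz = mv N n A B T (lst u w) := ⟨_, rfl⟩
    rw [← hNz]
    -- the four distances
    have d1 : nm n A (fun y => Nz y - Mw w y) ≤ 4.83 * σ * R := by
      have h1 := (hM V N n A B (lst u w) hN hA0 hz).2.2 (T - w.length) T (Nat.sub_le _ _)
      have h2 : nm n A (fun y => Nz y - Mw w y) ≤
          (1 + Real.sqrt 2) * Real.sqrt (En n A Nz - En n A (Mw w)) := by
        rw [hNz, hMw]
        exact h1
      have h3 : En n A Nz ≤ r := by rw [hNz]; exact hBr _ hz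
      have h4 : (1 - ψ - t) ^ 2 * r ≤ En n A (Mw w) := by
        rw [← nm_sq hH n hA0, ← hR2, ← mul_pow]
        exact pow_le_pow_left₀ (mul_nonneg (by linarith) hR0.le) hw2 2
      have h5 : En n A Nz - En n A (Mw w) ≤ (2 * σ * R) ^ 2 := by
        have e1 : (2 * σ * R) ^ 2 = 4 * t * r := by rw [mul_pow, mul_pow, hσ2, hR2]; ring
        rw [e1]
        nlinarith [sq_nonneg (ψ + t)]
      have h6 : Real.sqrt (En n A Nz - En n A (Mw w)) ≤ 2 * σ * R := by
        rw [Real.sqrt_le_left (by positivity)]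
        exact h5
      have h7 : Real.sqrt 2 ≤ 1.415 := by
        rw [Real.sqrt_le_left (by norm_num)]
        norm_num
      calc nm n A (fun y => Nz y - Mw w y) ≤
            (1 + Real.sqrt 2) * Real.sqrt (En n A Nz - En n A (Mw w)) := h2
        _ ≤ (1 + 1.415) * (2 * σ * R) :=
            mul_le_mul (by linarith) h6 (Real.sqrt_nonneg _) (by norm_num)
        _ = 4.83 * σ * R := by ring
    have d2 : nm n A (fun y => Mw w y - m y) ≤ 0.5 * σ * R := by
      refine le_trans hw1 ?_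
      nlinarith
    have d3 : nm n A (fun y => m y - NC y) ≤ 0.5 * σ * R := by
      rw [i4 m NC]
      refine le_trans hCm ?_
      have : 2 * a ≤ σ / 2 := by linarith
      nlinarith
    have d4 : nm n A (fun y => NC y - Nu y) ≤ 3 * σ * R := by
      rw [nm_le_iff n A _ (by positivity)]
      have h1 := m1 T C hCp
      rw [← hNu, ← hNC] at h1
      refine le_trans h1 ?_
      have h2 : nm n A NC ≤ (1 + 2 * a) * R := by
        have := nm_rev hH n hA0 NC m
        linarith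
      have h3 : En n A NC ≤ (1 + 2 * a) ^ 2 * r := by
        rw [← nm_sq hH n hA0, ← hR2, ← mul_pow]
        exact pow_le_pow_left₀ (nm_nn n A _) h2 2
      have h4 : (1 - β) ^ 2 * r ≤ En n A Nu := by
        rw [← nm_sq hH n hA0, ← hR2, ← mul_pow]
        exact pow_le_pow_left₀ (mul_nonneg (by linarith) hR0.le) hnu 2
      have e1 : (3 * σ * R) ^ 2 = 9 * t * r := by rw [mul_pow, mul_pow, hσ2, hR2]; ring
      rw [e1]
      have h5 : 2 * (1 + 2 * a) ^ 2 - 2 * (1 - β) ^ 2 ≤ 9 * t := by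
        nlinarith [sq_nonneg β, mul_nonneg ha (sub_nonneg.mpr ha1)]
      have h6 : (2 * (1 + 2 * a) ^ 2 - 2 * (1 - β) ^ 2) * r ≤ 9 * t * r :=
        mul_le_mul_of_nonneg_right h5 hr.le
      linarith
    have t1 := nm_tri hH n hA0 Nz (Mw w) Nu
    have t2 := nm_tri hH n hA0 (Mw w) m Nu
    have t3 := nm_tri hH n hA0 m NC Nu
    have hσR : 0 ≤ σ * R := by positivity
    nlinarith
  -- Markov
  have hsub : ∀ w ∈ W'.filter (fun w => ¬ (lst u w ∈ B ∧ w.length < T ∧
        nm n A (fun y => mv N n A B T (lst u w) y - mv N n A B T u y) ≤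
          10 * Real.sqrt t * Real.sqrt r)),
      Q w * (t ^ 2 * r) ≤ Q w * En n A (fun y => Mw w y - m y) := by
    intro w hw
    have h1 := (mem_filter.mp hw).2
    refine mul_le_mul_of_nonneg_left ?_ (hQ'.nn w)
    by_contra hc
    exact h1 (hgood w (not_le.mp hc).le)
  have h1 : (∑ w ∈ W'.filter (fun w => ¬ (lst u w ∈ B ∧ w.length < T ∧
        nm n A (fun y => mv N n A B T (lst u w) y - mv N n A B T u y) ≤
          10 * Real.sqrt t * Real.sqrt r)), Q w) * (t ^ 2 * r) ≤ 2 * ψ * r := by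
    rw [sum_mul]
    refine le_trans (sum_le_sum hsub) (le_trans ?_ hvar)
    exact sum_le_sum_of_subset_of_nonneg (filter_subset _ _)
      (fun w _ _ => mul_nonneg (hQ'.nn w) (i1 _))
  rw [← hψ, ← hW', le_div_iff₀ (by positivity)]
  have h2 : ((∑ w ∈ W'.filter (fun w => ¬ (lst u w ∈ B ∧ w.length < T ∧
        nm n A (fun y => mv N n A B T (lst u w) y - mv N n A B T u y) ≤
          10 * Real.sqrt t * Real.sqrt r)), Q w) * t ^ 2) * r ≤ (2 * ψ) * r := by
    rw [mul_assoc]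
    exact h1
  exact le_of_mul_le_mul_right h2 hr

end Pool.MAD
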